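import Mathlib
import Pool.Agent.H892.KT.Stm

/-!
Project KT: a continuous map which is rational near every point of a connected open set is rational
on the whole set.
-/

set_option autoImplicit false

open Filter Topology Set
open scoped Manifold ContDiff

namespace Pool.Agent.H653.KT

open Pool.Agent.H892.KT

theorem ev_mul (P Q : MvPolynomial (Fin 2) ℂ) (q : ℂ × ℂ) : ev (P * Q) q = ev P q * ev Q q := by
  unfold ev
  rw [map_mul]

theorem ev_sub (P Q : MvPolynomial (Fin 2) ℂ) (q : ℂ × ℂ) : ev (P - Q) q = ev P q - ev Q q := by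
  unfold ev
  rw [map_sub]

theorem scal (h1 : S_UNIQ) (V : Set (ℂ × ℂ)) (f : ℂ × ℂ → ℂ) (hV : IsOpen V)
    (hc : IsPreconnected V) (hf : ContinuousOn f V)
    (hr : ∀ p ∈ V, ∃ P Q : MvPolynomial (Fin 2) ℂ, Q ≠ 0 ∧ ∀ᶠ q in 𝓝 p, ev Q q * f q = ev P q)
    (p0 : ℂ × ℂ) (hp0 : p0 ∈ V) (P Q : MvPolynomial (Fin 2) ℂ)
    (h0 : ∀ᶠ q in 𝓝 p0, ev Q q * f q = ev P q) : ∀ q ∈ V, ev Q q * f q = ev P q := by
  obtain ⟨hu1, hu2, hu3⟩ := h1
  have hA : IsOpen {q | ∀ᶠ q' in 𝓝 q, ev Q q' * f q' = ev P q'} :=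
    isOpen_setOfPred_eventually_nhds
  have key : V ⊆ {q | ∀ᶠ q' in 𝓝 q, ev Q q' * f q' = ev P q'} := by
    refine hc.subset_of_closure_inter_subset hA ⟨p0, hp0, h0⟩ ?_
    rintro q ⟨hq, hqV⟩
    obtain ⟨P', Q', hQ', hev⟩ := hr q hqV
    obtain ⟨B, hB1, hB2, hqB⟩ := eventually_nhds_iff.mp (hev.and (hV.mem_nhds hqV))
    obtain ⟨a, haB, haA⟩ := mem_closure_iff.mp hq B hB2 hqB
    have h2 : P * Q' - P' * Q = 0 := by
      apply hu1 _ a
      filter_upwards [haA, hB2.mem_nhds haB] with x hx hxB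
      have h3 := (hB1 x hxB).1
      rw [ev_sub, ev_mul, ev_mul, ← hx, ← h3]
      ring
    have h4 : ∀ x ∈ B, ev Q' x * (ev Q x * f x - ev P x) = 0 := by
      intro x hx
      have h5 := (hB1 x hx).1
      have h6 : ev P x * ev Q' x - ev P' x * ev Q x = 0 := by
        rw [← ev_mul, ← ev_mul, ← ev_sub, h2]
        unfold ev
        rw [map_zero]
      have h7 : ev Q' x * (ev Q x * f x - ev P x)
          = ev Q x * (ev Q' x * f x) - ev P x * ev Q' x := by ring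
      rw [h7, h5]
      linear_combination -h6
    have h8 : ∀ x ∈ B, ev Q x * f x - ev P x = 0 := by
      intro x hx
      have hcont : ContinuousAt (fun y => ev Q y * f y - ev P y) x :=
        (((hu2 Q).continuousAt).mul (hf.continuousAt (hV.mem_nhds (hB1 x hx).2))).sub
          (hu2 P).continuousAt
      by_contra hne
      have h9 : ∀ᶠ y in 𝓝 x, ev Q y * f y - ev P y ≠ 0 := hcont.eventually_ne hne
      obtain ⟨C, hC1, hC2, hxC⟩ := eventually_nhds_iff.mp (h9.and (hB2.mem_nhds hx))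
      obtain ⟨y, hyC, hyQ⟩ := (hu3 Q' hQ').inter_open_nonempty C hC2 ⟨x, hxC⟩
      exact (mul_ne_zero hyQ (hC1 y hyC).1) (h4 y (hC1 y hyC).2)
    show ∀ᶠ q' in 𝓝 q, ev Q q' * f q' = ev P q'
    filter_upwards [hB2.mem_nhds hqB] with x hx
    exact sub_eq_zero.mp (h8 x hx)
  intro q hq
  exact (key hq).self_of_nhds

theorem t_CONN (h1 : S_UNIQ) : S_CONN := by
  intro V τ hV hc hτ hr
  rcases V.eq_empty_or_nonempty with rfl | ⟨p0, hp0⟩
  · exact ⟨0, 1, 0, 1, one_ne_zero, one_ne_zero, fun q hq => absurd hq (notMem_empty q)⟩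
  obtain ⟨P₁, Q₁, P₂, Q₂, hQ₁, hQ₂, hev⟩ := hr p0 hp0
  refine ⟨P₁, Q₁, P₂, Q₂, hQ₁, hQ₂, fun q hq => ⟨?_, ?_⟩⟩
  · refine scal h1 V (fun q => (τ q).1) hV hc (continuous_fst.comp_continuousOn hτ) ?_ p0 hp0 P₁ Q₁
      (hev.mono fun q h => h.1) q hq
    intro p hp
    obtain ⟨P, Q, P', Q', hQ, hQ', h⟩ := hr p hp
    exact ⟨P, Q, hQ, h.mono fun q h => h.1⟩
  · refine scal h1 V (fun q => (τ q).2) hV hc (continuous_snd.comp_continuousOn hτ) ?_ p0 hp0 P₂ Q₂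
      (hev.mono fun q h => h.2) q hq
    intro p hp
    obtain ⟨P, Q, P', Q', hQ, hQ', h⟩ := hr p hp
    exact ⟨P', Q', hQ', h.mono fun q h => h.2⟩

end Pool.Agent.H653.KT
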